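import Pool.Agent.Q144.LR.Prod

/-!
# Short periodic geodesics on spaces with Lipschitz projections to Lipschitz homogeneous factors:
# volume and width

`X` is a compact metric space of covering dimension at most `n` in which any two points are joined
by a minimal geodesic and minimal geodesics between points at distance less than `r` are unique, such
that the identity of `X` is not homotopic to a map which factors through a finite polyhedron of
dimension less than `n` (`¬ Dom X n`; all this holds for every closed Riemannian `n`-manifold).
`e : X ≃ₜ ∏ i, F i` is a homeomorphism to a finite product such that every projection `X → F i` is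
`b`-Lipschitz and has an `a`-Lipschitz section. No group has to act on `X`; on each of the factors
`F i` (again spaces with locally unique minimal geodesics) a topological group acts by
`lam`-Lipschitz maps such that the orbit maps have continuous local sections (for closed manifolds: a
Lie group acts transitively). Then there is a periodic geodesic of length at most `C` times the `n`-th
root of the Hausdorff measure of `X` (a multiple of the Riemannian volume), and at most `C * w` if
`X` has a finite open cover by sets of diameter at most `w` such that every point is in at most `n` of
them. Here `C` depends only on `n`, `lam`, `a`, `b`.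

For example let `X` be `F_1 × ... × F_k` with a generalised warped product metric
`a_1 ^ 2 g_1 + ... + a_k ^ 2 g_k`, where the `(F_j, g_j)` are Riemannian homogeneous closed manifolds
and `a_j` is an ARBITRARY positive function of the coordinates other than the `j`-th one (this
contains the multiply warped products `g_B + f_1 ^ 2 g_1 + ...` over homogeneous `B`). Then
`a = b = lam = 1`, with the metric `(min a_j) ^ 2 g_j` on `F_j`: the bound of Q1 holds with a constant
which depends only on `n`.

The proof: if there is no short periodic geodesic in `X`, the factors are locally contractible at a
large scale, in a controlled way: curve shortening in `X` contracts the polygons of a section, and the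
projection brings the contraction back to the factor (`Pool.Agent.Q144.LR.lc_retract`). So the product
with the maximum metric, which has the same covers as `X` up to the factor `b`, is dominated by the
nerve of a cover of small multiplicity, a contradiction. The case of one factor `F = X` is the
starting theorem `LipschitzHomogeneousVolume`, whose library (`Pool.Agent.Y489.GE`) is used.
-/

set_option autoImplicit false

open Set Topology MeasureTheory

namespace Pool.Agent.Results.MP_3eff7f_gt.LipschitzProducts

open Pool.Agent.Y489.GE

/-- `GeodSpace X`: any two points are joined by a minimal geodesic. `UniqGeod X r`: minimal geodesics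
between points at distance less than `r` are unique. `LocSec (F i) (G i) p`: the orbit map of `p` has
a continuous local section. `CovDim X n`: covering dimension at most `n`. `Cov X w n`: finite open
cover by sets of diameter at most `w`, every point in at most `n` of them. `ClosedGeod X L`: there is
a periodic geodesic (locally minimal, parametrised by arc length) with a period in `(0, L]`. -/
theorem result (n : ℕ) (hn : 1 ≤ n) (lam a b : ℝ) (hlam : 1 ≤ lam) (ha : 1 ≤ a) (hb : 1 ≤ b) :
    ∃ C : ℝ, 0 < C ∧ ∀ (X I : Type) [MetricSpace X] [CompactSpace X] [MeasurableSpace X]
      [BorelSpace X] [Fintype I] (F G : I → Type) [∀ i, MetricSpace (F i)]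
      [∀ i, CompactSpace (F i)] [∀ i, Group (G i)] [∀ i, TopologicalSpace (G i)]
      [∀ i, IsTopologicalGroup (G i)] [∀ i, MulAction (G i) (F i)]
      [∀ i, ContinuousSMul (G i) (F i)] (r : ℝ), 0 < r → GeodSpace X → UniqGeod X r →
      (∀ i, GeodSpace (F i)) → (∀ i, UniqGeod (F i) r) →
      (∀ (i : I) (g : G i) (x y : F i), dist (g • x) (g • y) ≤ lam * dist x y) →
      (∀ (i : I) (p : F i), LocSec (F i) (G i) p) →
      ∀ (e : X ≃ₜ (∀ i, F i)) (s : ∀ i, F i → X),
      -- the projections are `b`-Lipschitz and have `a`-Lipschitz sections `s i`
      (∀ (i : I) (x y : X), dist (e x i) (e y i) ≤ b * dist x y) →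
      (∀ (i : I) (x y : F i), dist (s i x) (s i y) ≤ a * dist x y) →
      (∀ (i : I) (x : F i), e (s i x) i = x) →
      CovDim X n → ¬ Dom X n →
      (∀ w : ℝ, 0 < w → Cov X w n → ClosedGeod X (C * w)) ∧
      (μH[(n : ℝ)] (univ : Set X) ≠ ⊤ →
        ClosedGeod X (C * (μH[(n : ℝ)] (univ : Set X)).toReal ^ (1 / (n : ℝ)))) := by
  obtain ⟨C, hC, h⟩ := Pool.Agent.Q144.LR.mainB n hn lam a b hlam ha hb
  refine ⟨C, hC, ?_⟩
  intro X I _ _ _ _ _ F G _ _ _ _ _ _ _ r hr hX hUX hF hUF hG hs e s h1 h2 h3 hdim hess
  exact h X I F G r hr hX hUX hF hUF hG hs e s (fun i => ⟨h2 i, h1 i, h3 i⟩) hdim hess

end Pool.Agent.Results.MP_3eff7f_gt.LipschitzProducts
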