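import Pool.Agent.Q144.LR.Fin

/-!
# Short periodic geodesics on spaces with a Lipschitz retraction onto a Lipschitz homogeneous space

`X` and `A` are compact metric spaces in which any two points are joined by a minimal geodesic and
minimal geodesics between points at distance less than `r` are unique (every closed Riemannian
manifold). `A` is a Lipschitz retract of `X`: there are an `a`-Lipschitz map `ι : A → X` and a
`b`-Lipschitz map `ρ : X → A` with `ρ ∘ ι = id`. Nothing else is supposed about `X`; in particular no
group has to act on `X`. A topological group acts on `A` by `lam`-Lipschitz maps and the orbit map of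
the point `p` has a continuous local section (for closed manifolds: a Lie group acts transitively).
If `π_n(A) ≠ 0`, or if `A` has covering dimension at most `n` and is not contractible, then `X` has
periodic geodesics of length at most any number greater than
`2 a (1 + l + ... + l ^ (n - 1)) diam A ≤ 2 a b (1 + l + ... + l ^ (n - 1)) diam X`,
`l = lam a b`.

For example let `X = B × F` be a warped product `g_B + f ^ 2 g_F` of an ARBITRARY closed manifold `B`,
with an arbitrary warping function `f`, and let a Lie group act transitively on `F` by isometries. If
`f` is minimal at `x₀`, then `A = F` with the metric `f(x₀) ^ 2 g_F` is a retract with `a = b = 1`. So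
there is a periodic geodesic of length at most `(2 dim F + ε) diam X`. More generally, if for some
metric on `B × F` one fibre `x₀ × F` is Riemannian homogeneous and the projection to this fibre is
`c`-Lipschitz, then the bound of Q2 holds with a constant which depends only on `dim F` and `c`.

The proof: if there is no short periodic geodesic in `X`, curve shortening in `X` contracts the
polygons `ι(x)`; the retraction `ρ` brings the contraction back to `A`, where the group brings the
first vertex back to `p`. So the short based loops of `A` are contracted within based loops of
bounded length, and maps into `A` are contracted by the construction of the starting library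
(`Pool.Agent.Y489.GE`, the case `X = A`).
-/

set_option autoImplicit false

open Set Topology

namespace Pool.Agent.Results.MP_3eff7f_gt.LipschitzRetracts

open Pool.Agent.Y489.GE

/-- `GeodSpace X`: any two points are joined by a minimal geodesic. `UniqGeod X r`: minimal geodesics
between points at distance less than `r` are unique. `LocSec A G p`: the orbit map of `p` has a
continuous local section. `CovDim A n`: covering dimension at most `n`. `ClosedGeod X L`: there is a
periodic geodesic (locally minimal, parametrised by arc length) with a period in `(0, L]`. -/
theorem result (X A G : Type) [MetricSpace X] [CompactSpace X] [MetricSpace A] [CompactSpace A]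
    [Group G] [TopologicalSpace G] [IsTopologicalGroup G] [MulAction G A] [ContinuousSMul G A]
    (r : ℝ) (hr : 0 < r) (hX : GeodSpace X) (hUX : UniqGeod X r)
    (hA : GeodSpace A) (hUA : UniqGeod A r)
    -- the retraction
    (a b : ℝ) (ha : 0 ≤ a) (hb : 0 ≤ b) (ι : A → X) (ρ : X → A)
    (hι : ∀ x y : A, dist (ι x) (ι y) ≤ a * dist x y)
    (hρ : ∀ x y : X, dist (ρ x) (ρ y) ≤ b * dist x y) (hid : ∀ x : A, ρ (ι x) = x)
    -- the action on `A`
    (p : A) (lam : ℝ) (hG : ∀ (g : G) (x y : A), dist (g • x) (g • y) ≤ lam * dist x y)
    (hs : LocSec A G p)
    (n : ℕ) (hn : 1 ≤ n)
    (h : Nontrivial (HomotopyGroup (Fin n) A p) ∨ CovDim A n ∧ ¬ ContractibleSpace A) :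
    (∀ L : ℝ, 2 * a * (∑ i ∈ Finset.range n, (lam * (a * b)) ^ i) * Metric.diam (univ : Set A) < L →
      ClosedGeod X L) ∧
    ∀ L : ℝ, 2 * (a * b) * (∑ i ∈ Finset.range n, (lam * (a * b)) ^ i) *
      Metric.diam (univ : Set X) < L → ClosedGeod X L :=
  Pool.Agent.Q144.LR.mainA X A G a b lam ha hb ι ρ ⟨hι, hρ, hid⟩ r hr hX hUX hA hUA p hG hs n hn h

end Pool.Agent.Results.MP_3eff7f_gt.LipschitzRetracts
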