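import Pool.Agent.Q144.LR.Hom

/-!
# Short periodic geodesics on Lipschitz retracts of Lipschitz homogeneous spaces

`X` is a compact metric space in which any two points are joined by a minimal geodesic and minimal
geodesics between points at distance less than `r` are unique (every closed Riemannian manifold). No
group has to act on `X`, but `X` is a Lipschitz retract of a homogeneous space: there are a metric
space `Y` (it need not be compact, finite-dimensional, geodesic or connected), on which a
topological group acts by `lam`-Lipschitz maps, an `a`-Lipschitz map `ι : X → Y` and a `b`-Lipschitz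
map `ρ : Y → X` with `ρ ∘ ι = id`, and the orbit map of the point `ι p` has a continuous local section
(for instance: a Lie group acts transitively on the manifold `Y`). If `π_n(X, p) ≠ 0`, or if `X` has
covering dimension at most `n` and is not contractible, then `X` has a periodic geodesic of length at
most `L` for every `L > 2 (1 + l + ... + l ^ (n - 1)) diam X`, `l = lam a b`.

The spaces `X` of this kind are closed under products and retracts and contain manifolds which are
not homotopy equivalent to a Lie group, for instance the Hilton-Roitberg manifold `M` (a principal
`S³`-bundle over `S⁷`): `M × S³` is diffeomorphic to the Lie group `Sp(2) × S³`, so that `M` with any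
Riemannian metric is a Lipschitz retract of this group with a left-invariant metric.

The proof: without short periodic geodesics, curve shortening contracts the polygons of `X`; the
first vertex is brought back to `p` by the maps `ρ ∘ g⁻¹ ∘ ι`, which are `l`-Lipschitz; `g` is obtained
by lifting the track of `ι` of the first vertex to the group. They are not invertible, but this is
not needed. The rest is the construction of the starting library (`Pool.Agent.Y489.GE`, the case
`X = Y`).
-/

set_option autoImplicit false

open Set Topology

namespace Pool.Agent.Results.MP_3eff7f_gt.RetractsOfHomogeneous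

open Pool.Agent.Y489.GE

/-- `GeodSpace X`: any two points are joined by a minimal geodesic. `UniqGeod X r`: minimal geodesics
between points at distance less than `r` are unique. `LocSec Y G y`: the orbit map of `y` has a
continuous local section. `CovDim X n`: covering dimension at most `n`. `ClosedGeod X L`: there is a
periodic geodesic (locally minimal, parametrised by arc length) with a period in `(0, L]`. -/
theorem result (X Y G : Type) [MetricSpace X] [CompactSpace X] [MetricSpace Y]
    [Group G] [TopologicalSpace G] [IsTopologicalGroup G] [MulAction G Y] [ContinuousSMul G Y]
    (r : ℝ) (hr : 0 < r) (hX : GeodSpace X) (hUX : UniqGeod X r)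
    -- the retraction
    (a b : ℝ) (ha : 0 ≤ a) (hb : 0 ≤ b) (ι : X → Y) (ρ : Y → X)
    (hι : ∀ x y : X, dist (ι x) (ι y) ≤ a * dist x y)
    (hρ : ∀ x y : Y, dist (ρ x) (ρ y) ≤ b * dist x y) (hid : ∀ x : X, ρ (ι x) = x)
    -- the action on `Y`
    (p : X) (lam : ℝ) (hG : ∀ (g : G) (x y : Y), dist (g • x) (g • y) ≤ lam * dist x y)
    (hs : LocSec Y G (ι p))
    (n : ℕ) (hn : 1 ≤ n)
    (h : Nontrivial (HomotopyGroup (Fin n) X p) ∨ CovDim X n ∧ ¬ ContractibleSpace X) :
    ∀ L : ℝ, 2 * (∑ i ∈ Finset.range n, (lam * (a * b)) ^ i) * Metric.diam (univ : Set X) < L →
      ClosedGeod X L :=
  Pool.Agent.Q144.LR.mainC X Y G a b lam ha hb ι ρ ⟨hι, hρ, hid⟩ r hr hX hUX p hG hs n hn h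

end Pool.Agent.Results.MP_3eff7f_gt.RetractsOfHomogeneous
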