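import Pool.Agent.Q144.LR.Hom

/-!
# Short periodic geodesics on Lipschitz retracts of Lipschitz homogeneous spaces: volume and width

`X` is a compact metric space of covering dimension at most `n` in which any two points are joined
by a minimal geodesic and minimal geodesics between points at distance less than `r` are unique, such
that the identity of `X` is not homotopic to a map which factors through a finite polyhedron of
dimension less than `n` (`¬ Dom X n`; all this holds for every closed Riemannian `n`-manifold). No
group has to act on `X`, but `X` is a Lipschitz retract of a homogeneous space: there are a metric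
space `Y` (it need not be compact, finite-dimensional or geodesic), on which a topological group acts
by `lam`-Lipschitz maps, an `a`-Lipschitz map `ι : X → Y` and a `b`-Lipschitz map `ρ : Y → X` with
`ρ ∘ ι = id`, and the orbit maps of the points of `ι(X)` have continuous local sections. Then `X` has a
periodic geodesic of length at most `C` times the `n`-th root of its Hausdorff measure (a multiple of
the Riemannian volume), and of length at most `C * w` if `X` has a finite open cover by sets of
diameter at most `w` such that every point is in at most `n` of them. Here `C` depends only on `n` and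
on a bound for `lam a b`.

The spaces `X` of this kind are closed under products and retracts and contain manifolds which are
not homotopy equivalent to a Lie group, for instance the Hilton-Roitberg manifold `M` (a principal
`S³`-bundle over `S⁷`): `M × S³` is diffeomorphic to the Lie group `Sp(2) × S³`, so that `M` with any
Riemannian metric is a Lipschitz retract of this group with a left-invariant metric.

The case `X = Y` is the starting theorem `LipschitzHomogeneousVolume`, whose library
(`Pool.Agent.Y489.GE`) is used. New is the transport of contractions of loops by the maps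
`ρ ∘ g⁻¹ ∘ ι`, which are not invertible.
-/

set_option autoImplicit false

open Set Topology MeasureTheory

namespace Pool.Agent.Results.MP_3eff7f_gt.RetractsOfHomogeneousVolume

open Pool.Agent.Y489.GE

/-- `GeodSpace X`: any two points are joined by a minimal geodesic. `UniqGeod X r`: minimal geodesics
between points at distance less than `r` are unique. `LocSec Y G y`: the orbit map of `y` has a
continuous local section. `CovDim X n`: covering dimension at most `n`. `Cov X w n`: finite open
cover by sets of diameter at most `w`, every point in at most `n` of them. `ClosedGeod X L`: there is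
a periodic geodesic (locally minimal, parametrised by arc length) with a period in `(0, L]`. -/
theorem result (n : ℕ) (hn : 1 ≤ n) (l : ℝ) (hl : 1 ≤ l) :
    ∃ C : ℝ, 0 < C ∧ ∀ (X Y G : Type) [MetricSpace X] [CompactSpace X] [MeasurableSpace X]
      [BorelSpace X] [MetricSpace Y] [Group G] [TopologicalSpace G] [IsTopologicalGroup G]
      [MulAction G Y] [ContinuousSMul G Y] (a b lam : ℝ), 0 ≤ a → 0 ≤ b → lam * (a * b) ≤ l →
      ∀ (ι : X → Y) (ρ : Y → X), (∀ x y : X, dist (ι x) (ι y) ≤ a * dist x y) →
      (∀ x y : Y, dist (ρ x) (ρ y) ≤ b * dist x y) → (∀ x : X, ρ (ι x) = x) →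
      ∀ r : ℝ, 0 < r → GeodSpace X → UniqGeod X r →
      (∀ (g : G) (x y : Y), dist (g • x) (g • y) ≤ lam * dist x y) →
      (∀ p : X, LocSec Y G (ι p)) → CovDim X n → ¬ Dom X n →
      (∀ w : ℝ, 0 < w → Cov X w n → ClosedGeod X (C * w)) ∧
      (μH[(n : ℝ)] (univ : Set X) ≠ ⊤ →
        ClosedGeod X (C * (μH[(n : ℝ)] (univ : Set X)).toReal ^ (1 / (n : ℝ)))) := by
  obtain ⟨C, hC, h⟩ := Pool.Agent.Q144.LR.mainCV n hn l hl
  refine ⟨C, hC, ?_⟩
  intro X Y G _ _ _ _ _ _ _ _ _ _ a b lam ha hb hlab ι ρ h1 h2 h3 r hr hX hUX hG hs hdim hess
  exact h X Y G a b lam ha hb hlab ι ρ ⟨h1, h2, h3⟩ r hr hX hUX hG hs hdim hess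

end Pool.Agent.Results.MP_3eff7f_gt.RetractsOfHomogeneousVolume
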